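import Pool.Agent.DK.LINK
import Pool.Agent.DM.BDT
import Pool.Agent.DM.BDY
import Pool.Agent.DM.LIN

/-!
# DK: bounds for the conjugates of the entries
-/

namespace Pool.Agent.DK

open Finset Pool.Agent.ZC Pool.Agent.SI Pool.Agent.DM

private theorem bdk_single (i : ℕ) :
    (fun k => (((Pi.single i 1 : ℕ → ℚ) k : ℚ) : ℝ)) = (Pi.single i 1 : ℕ → ℝ) := by
  funext k
  by_cases h : k = i
  · subst h
    simp
  · simp [Pi.single_eq_of_ne h]

private theorem bdk_sum_le (s : Finset ℕ) (w : ℕ → ℂ) (q : ℕ → ℚ) (N : ℝ) (_hN : 0 ≤ N)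
    (hq : ∀ i ∈ s, |(q i : ℝ)| ≤ N) :
    ‖∑ i ∈ s, w i * ((q i : ℚ) : ℂ)‖ ≤ (∑ i ∈ s, ‖w i‖) * N := by
  refine (norm_sum_le _ _).trans ?_
  rw [Finset.sum_mul]
  refine Finset.sum_le_sum fun i hi => ?_
  rw [norm_mul]
  refine mul_le_mul_of_nonneg_left ?_ (norm_nonneg _)
  have h1 : ((q i : ℚ) : ℂ) = (((q i : ℚ) : ℝ) : ℂ) := by norm_cast
  rw [h1, Complex.norm_real, Real.norm_eq_abs]
  exact hq i hi

/-- conjugates of the extra coordinates, and of the `F` rows compared with the real `F` rows -/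
theorem dk_bd {K : Type} [Field K] [NumberField K] (B H a S T : ℕ) (hB : 1 ≤ B) (hBH : B ≤ H)
    (ha : 1 ≤ a) {J : Type} [Fintype J] (z : ℕ → K) (c : ℕ → J → K) :
    ∃ Λ : ℝ, 1 ≤ Λ ∧ ∃ M0 : ℕ, ∀ M ≥ M0, ∀ β < B, ∀ r ≤ S,
      ∀ j < (4 * H - 2 * (2 * β + 1)) * ((a + S + 1) * M), ∀ l < (a + S + 1) * M, ∀ m < a,
      ∀ ρ : K →+* ℂ,
      (∀ k : J, ‖ρ (PowerSeries.coeff m (yRow K M ((a + S + 1) * M) T (fun i => c i k) l β r j))‖ ≤
        Λ * (1000 * (H : ℝ) * (a + S + 1)) ^ (5 * (4 * H * ((a + S + 1) * M)))) ∧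
      ‖ρ (PowerSeries.coeff m (dRow K M ((a + S + 1) * M) T z l β r j)) -
        ((PowerSeries.coeff m (dRow ℝ M ((a + S + 1) * M) T zr l β r j) : ℝ) : ℂ)‖ ≤
        Λ * (1000 * (H : ℝ) * (a + S + 1)) ^ (5 * (4 * H * ((a + S + 1) * M))) := by
  classical
  choose M0 hM0 using fun i : ℕ => dm_bd_y B H a S T hB hBH ha (Pi.single i 1)
  set W : (K →+* ℂ) → ℝ := fun ρ => ∑ i ∈ oddS T, ((∑ k, ‖ρ (c i k)‖) + ‖ρ (z i)‖ + |zr i|) with hW
  have hW0 : ∀ ρ, 0 ≤ W ρ := fun ρ => Finset.sum_nonneg fun i _ => by positivity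
  have hWle : ∀ ρ, W ρ ≤ 1 + ∑ ρ, W ρ := fun ρ => by
    have := Finset.single_le_sum (fun ρ _ => hW0 ρ) (Finset.mem_univ ρ)
    linarith
  refine ⟨1 + ∑ ρ : K →+* ℂ, W ρ, ?_, (oddS T).sup M0, ?_⟩
  · have : 0 ≤ ∑ ρ : K →+* ℂ, W ρ := Finset.sum_nonneg fun ρ _ => hW0 ρ
    linarith
  intro M hM β hβ r hr j hj l hl m hm ρ
  set p := (a + S + 1) * M with hp
  set N0 : ℝ := (1000 * (H : ℝ) * (a + S + 1)) ^ (5 * (4 * H * p)) with hN0
  have hN00 : 0 ≤ N0 := by positivity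
  have hq : ∀ i ∈ oddS T, |((PowerSeries.coeff m (yRow ℚ M p T (Pi.single i 1) l β r j) : ℚ) : ℝ)| ≤
      N0 := by
    intro i hi
    rw [dm_cast_y, bdk_single]
    exact hM0 i M ((Finset.le_sup hi).trans hM) β hβ r hr j hj l hl m hm
  refine ⟨fun k => ?_, ?_⟩
  · rw [dk_lin_y, map_sum]
    simp only [map_mul, map_ratCast]
    refine (bdk_sum_le _ _ _ N0 hN00 hq).trans (mul_le_mul_of_nonneg_right ?_ hN00)
    refine le_trans ?_ (hWle ρ)
    refine Finset.sum_le_sum fun i _ => ?_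
    have h1 : ‖ρ (c i k)‖ ≤ ∑ k, ‖ρ (c i k)‖ :=
      Finset.single_le_sum (f := fun k => ‖ρ (c i k)‖) (fun _ _ => norm_nonneg _) (Finset.mem_univ k)
    have h2 := norm_nonneg (ρ (z i))
    have h3 := abs_nonneg (zr i)
    linarith
  · have e1 := dk_lin_d K M p T z l β r j m
    have e2 := dk_lin_d ℝ M p T zr l β r j m
    have e3 : ρ (PowerSeries.coeff m (dRow K M p T z l β r j)) -
        ((PowerSeries.coeff m (dRow ℝ M p T zr l β r j) : ℝ) : ℂ) =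
        ∑ i ∈ oddS T, (ρ (z i) - (zr i : ℂ)) *
          ((PowerSeries.coeff m (yRow ℚ M p T (Pi.single i 1) l β r j) : ℚ) : ℂ) := by
      rw [e1, e2, map_add, map_sum]
      simp only [map_mul, map_ratCast, sub_mul, Finset.sum_sub_distrib]
      push_cast
      ring
    rw [e3]
    refine (bdk_sum_le _ _ _ N0 hN00 hq).trans (mul_le_mul_of_nonneg_right ?_ hN00)
    refine le_trans ?_ (hWle ρ)
    refine Finset.sum_le_sum fun i _ => ?_
    have h1 : 0 ≤ ∑ k, ‖ρ (c i k)‖ := Finset.sum_nonneg fun _ _ => norm_nonneg _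
    have h2 : ‖ρ (z i) - (zr i : ℂ)‖ ≤ ‖ρ (z i)‖ + |zr i| := by
      refine (norm_sub_le _ _).trans ?_
      rw [Complex.norm_real, Real.norm_eq_abs]
    linarith

end Pool.Agent.DK
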