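import Pool.Agent.DK.LINK
import Pool.Agent.DM.ENT

/-!
# DK: integrality of the entries
-/

namespace Pool.Agent.DK

open Finset Pool.Agent.ZC Pool.Agent.SI Pool.Agent.DM

section

variable {K : Type} [Field K] [CharZero K]

private theorem cast_int {D : ℕ} {q : ℚ} (h : ∃ w : ℤ, (D : ℚ) * q = w) :
    IsIntegral ℤ ((D : K) * (q : K)) := by
  obtain ⟨w, hw⟩ := h
  have e : (D : K) * (q : K) = algebraMap ℤ K w := by
    have := congrArg (fun t : ℚ => (t : K)) hw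
    push_cast at this
    rw [this]
    simp
  rw [e]
  exact isIntegral_algebraMap

theorem dk_int_t {a S d M : ℕ} (hM : 0 < M) (hd : ∀ q : ℕ, 1 ≤ q → q ≤ M → q ∣ d) (p Q : ℕ)
    (l j m : ℕ) (hm : m < a) :
    IsIntegral ℤ (((Q * d ^ (a + S + 1) : ℕ) : K) * PowerSeries.coeff m (ev K p l (Cn K M j))) := by
  rw [dk_lin_t]
  exact cast_int (dm_int_t hM hd p Q l j m hm)

theorem dk_int_y {a S d M : ℕ} (hM : 0 < M) (hd : ∀ q : ℕ, 1 ≤ q → q ≤ M → q ∣ d) (p T : ℕ)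
    (c : ℕ → K) (Q : ℕ) (hQ : ∀ i ∈ oddS T, IsIntegral ℤ ((Q : K) * c i))
    (l β r j m : ℕ) (hr : r ≤ S) (hm : m < a) :
    IsIntegral ℤ (((Q * d ^ (a + S + 1) : ℕ) : K) *
      PowerSeries.coeff m (yRow K M p T c l β r j)) := by
  rw [dk_lin_y, mul_sum]
  refine IsIntegral.sum _ fun i hi => ?_
  have h1 : IsIntegral ℤ (((1 * d ^ (a + S + 1) : ℕ) : K) *
      ((PowerSeries.coeff m (yRow ℚ M p T (Pi.single i 1) l β r j) : ℚ) : K)) := by
    refine cast_int (dm_int_y hM hd p T _ 1 ?_ l β r j m hr hm)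
    intro k _
    by_cases h : k = i
    · subst h
      exact ⟨1, by simp⟩
    · exact ⟨0, by rw [Pi.single_eq_of_ne h]; simp⟩
  have e : ((Q * d ^ (a + S + 1) : ℕ) : K) * (c i *
      ((PowerSeries.coeff m (yRow ℚ M p T (Pi.single i 1) l β r j) : ℚ) : K)) =
      ((Q : K) * c i) * (((1 * d ^ (a + S + 1) : ℕ) : K) *
      ((PowerSeries.coeff m (yRow ℚ M p T (Pi.single i 1) l β r j) : ℚ) : K)) := by
    push_cast
    ring
  rw [e]
  exact (hQ i hi).mul h1

theorem dk_int_d {a S d M : ℕ} (hM : 0 < M) (hd : ∀ q : ℕ, 1 ≤ q → q ≤ M → q ∣ d) (p T : ℕ)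
    (z : ℕ → K) (Q : ℕ) (hQ : ∀ i ∈ oddS T, IsIntegral ℤ ((Q : K) * z i))
    (l β r j m : ℕ) (hl : l < p) (hr : r ≤ S) (hm : m < a) :
    IsIntegral ℤ (((Q * d ^ (a + S + 1) : ℕ) : K) *
      PowerSeries.coeff m (dRow K M p T z l β r j)) := by
  have h2 := dk_int_y (a := a) hM hd p T z Q hQ l β r j m hr hm
  rw [dk_lin_y] at h2
  rw [dk_lin_d, mul_add]
  refine IsIntegral.add ?_ h2
  refine cast_int (dm_int_d hM hd p T 0 Q ?_ l β r j m hl hr hm)
  intro i _
  exact ⟨0, by simp⟩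

end

/-- common denominator of finitely many elements of `K` -/
theorem dk_den {K : Type} [Field K] [NumberField K] {J : Type} [Fintype J] (T : ℕ) (z : ℕ → K)
    (c : ℕ → J → K) : ∃ Q : ℕ, 0 < Q ∧ (∀ i ∈ oddS T, IsIntegral ℤ ((Q : K) * z i)) ∧
      ∀ j, ∀ i ∈ oddS T, IsIntegral ℤ ((Q : K) * c i j) := by
  classical
  obtain ⟨y, hy0, hy⟩ := exists_integral_multiples ℤ ℚ (L := K)
    ((oddS T).image z ∪ univ.biUnion fun j => (oddS T).image fun i => c i j)
  have key : ∀ a : K, IsIntegral ℤ (y • a) → IsIntegral ℤ ((y.natAbs : K) * a) := by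
    intro a ha
    have e1 : y • a = (y : K) * a := by simp
    rw [e1] at ha
    rcases Int.natAbs_eq y with h | h
    · rw [h] at ha
      simpa using ha
    · rw [h] at ha
      have h2 := ha.neg
      simpa using h2
  refine ⟨y.natAbs, Int.natAbs_pos.2 hy0, ?_, ?_⟩
  · intro i hi
    exact key _ (hy _ (mem_union_left _ (mem_image_of_mem _ hi)))
  · intro j i hi
    exact key _ (hy _ (mem_union_right _ (mem_biUnion.2 ⟨j, mem_univ _,
      mem_image_of_mem (fun i => c i j) hi⟩)))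

end Pool.Agent.DK
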