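import Pool.Agent.DK.CORK
import Pool.Agent.DK.NUMK

/-!
# DK: main theorem

`V` = span over `K` of the `zr i`, `x < i ≤ x + W` odd, of dimension `d`;
`J = Fin d ⊕ {i // i ∈ oddS x}`, `J1` = the first summand, `z = 0`, `c i (inl j)` = coordinates in a
basis of `V` for `i > x`, `c i (inr i') = [i = i']`, `v (inl j)` = basis, `v (inr i) = zr i`,
`s0 = x`.
-/

namespace Pool.Agent.DK

open Finset Pool.Agent.ZC Pool.Agent.SI Pool.Agent.DM

/-- coordinates of the elements of a finite dimensional space -/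
theorem FINK_data (K : IntermediateField ℚ ℝ) (V : Submodule K ℝ) [Module.Finite K V] (P : ℕ → Prop)
    (hP : ∀ i, P i → zr i ∈ V) :
    ∃ (v : Fin (Module.finrank K V) → ℝ) (c : ℕ → Fin (Module.finrank K V) → K),
      (∀ i, P i → zr i = ∑ k, (c i k : ℝ) * v k) ∧ ∀ i, ¬ P i → ∀ k, c i k = 0 := by
  classical
  set bs : Module.Basis (Fin (Module.finrank K V)) K V := Module.finBasis K V with hbs
  have hz : ∀ i : ℕ, ∃ c : Fin (Module.finrank K V) → K,
      (P i → zr i = ∑ k, (c k : ℝ) * (bs k : ℝ)) ∧ (¬ P i → ∀ k, c k = 0) := by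
    intro i
    by_cases hPi : P i
    · refine ⟨fun k => bs.repr ⟨zr i, hP i hPi⟩ k, fun _ => ?_, fun h => absurd hPi h⟩
      have h1 := bs.sum_repr ⟨zr i, hP i hPi⟩
      have h2 := congrArg (Submodule.subtype V) h1
      rw [map_sum] at h2
      simp only [map_smul, Submodule.subtype_apply, Algebra.smul_def] at h2
      exact h2.symm
    · exact ⟨0, fun h => absurd h hPi, fun _ _ => rfl⟩
  choose c hc using hz
  exact ⟨fun k => (bs k : ℝ), c, fun i hi => (hc i).1 hi, fun i hi => (hc i).2 hi⟩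

theorem dk_main : ∃ c C x0 : ℝ, 0 < c ∧ 0 < C ∧ ∀ (K : IntermediateField ℚ ℝ)
    [FiniteDimensional ℚ K] (x W : ℕ), x0 ≤ x →
    C * (x : ℝ) ^ (3 / 4 : ℝ) * (Module.finrank ℚ K * Real.log x) ^ (1 / 4 : ℝ) ≤ W → W ≤ x →
    c * (W : ℝ) ^ (5 / 3 : ℝ) / ((x : ℝ) * (Module.finrank ℚ K * Real.log x) ^ (2 / 3 : ℝ)) ≤
      (Module.finrank K (Submodule.span K
        {y : ℝ | ∃ i : ℕ, Odd i ∧ x < i ∧ i ≤ x + W ∧ y = zr i}) : ℝ) := by
  classical
  obtain ⟨C1, hC1, hcore⟩ := dk_core
  obtain ⟨c, C, x0, hc, hC, hnum⟩ := dk_num C1 hC1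
  refine ⟨c, C, x0, hc, hC, fun K _ x W hx hW1 hW2 => ?_⟩
  by_contra hlt
  push Not at hlt
  have hmod : (DivisionRing.toRatAlgebra : Algebra ℚ K) = K.algebra' := Subsingleton.elim _ _
  have hNF : NumberField K :=
    { to_charZero := inferInstance
      to_finiteDimensional := by
        rw [hmod]
        infer_instance }
  have hδ : 1 ≤ Module.finrank ℚ K := Module.finrank_pos
  set V : Submodule K ℝ := Submodule.span K
    {y : ℝ | ∃ i : ℕ, Odd i ∧ x < i ∧ i ≤ x + W ∧ y = zr i} with hV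
  have hfin : {y : ℝ | ∃ i : ℕ, Odd i ∧ x < i ∧ i ≤ x + W ∧ y = zr i}.Finite := by
    refine ((Set.finite_Iic (x + W)).image zr).subset ?_
    rintro y ⟨i, _, _, h3, rfl⟩
    exact ⟨i, h3, rfl⟩
  have : Module.Finite K V := Module.Finite.span_of_finite K hfin
  obtain ⟨B, H, a, S, f0, hB, hBH, haS, hI1, hI2, hlt2⟩ :=
    hnum x W (Module.finrank K V) (Module.finrank ℚ K) hδ hx hW1 hW2 hlt
  obtain ⟨v, cc, hv1, hv2⟩ := FINK_data K V (fun i => Odd i ∧ x < i ∧ i ≤ x + W)
    (fun i hi => Submodule.subset_span ⟨i, hi.1, hi.2.1, hi.2.2, rfl⟩)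
  let cF : ℕ → (Fin (Module.finrank K V) ⊕ {i // i ∈ oddS x}) → K :=
    fun i => Sum.elim (cc i) (fun i' => if i = i'.1 then 1 else 0)
  have hfinal := hcore K (algebraMap K ℝ) B H a S x f0 (Module.finrank K V) hB hBH hI1 hI2
    (Fin (Module.finrank K V) ⊕ {i // i ∈ oddS x})
    (univ.map Function.Embedding.inl) (by rw [card_map, card_univ, Fintype.card_fin])
    0 cF
    (by
      intro j hj i _ hi
      rcases j with k | i'
      · exact absurd (mem_map.2 ⟨k, mem_univ _, rfl⟩) hj
      · have h1 := i'.2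
        simp only [oddS, mem_filter, mem_Icc] at h1
        exact if_neg (by omega))
    (Sum.elim v (fun i' => zr i'.1))
    (by
      intro i hi
      have hi' := hi
      simp only [oddS, mem_filter, mem_Icc] at hi
      rw [Fintype.sum_sum_type]
      simp only [cF, Sum.elim_inl, Sum.elim_inr, Pi.zero_apply, map_zero, zero_add]
      by_cases hix : x < i
      · have h0 := hv1 i ⟨hi.2, hix, by omega⟩
        have h0' : zr i = ∑ k, (algebraMap K ℝ) (cc i k) * v k := h0
        rw [← h0', sum_eq_zero, add_zero]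
        intro i' _
        have h1 := i'.2
        simp only [oddS, mem_filter, mem_Icc] at h1
        rw [if_neg (by omega), map_zero, zero_mul]
      · have h2 : ∀ k, cc i k = 0 := hv2 i (fun h => hix h.2.1)
        rw [sum_eq_zero (fun k _ => by rw [h2 k, map_zero, zero_mul]), zero_add]
        have hm : i ∈ oddS x := by
          simp only [oddS, mem_filter, mem_Icc]
          exact ⟨⟨hi.1.1, by omega⟩, hi.2⟩
        rw [sum_eq_single_of_mem (⟨i, hm⟩ : {i // i ∈ oddS x}) (mem_univ _)]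
        · rw [if_pos rfl, map_one, one_mul]
        · intro i' _ hne
          rw [if_neg, map_zero, zero_mul]
          intro h
          exact hne (Subtype.ext h.symm))
  have hfr : (@Module.finrank ℚ K _ _ DivisionRing.toRatAlgebra.toModule) = Module.finrank ℚ K := by
    rw [hmod]
  rw [hfr] at hfinal
  linarith

end Pool.Agent.DK
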