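import Pool.Agent.DIM.JG
import Pool.Agent.DIM.JM
import Pool.Agent.ZC.RS

/-! # DK: the joint determinant over a field `K`

As `Pool.Agent.DIM.JDI`, with rows over an arbitrary field `K`; the determinant is evaluated through
an arbitrary ring homomorphism, after the shear of the columns and the row operations. -/

namespace Pool.Agent.DK

open Finset Module Pool.Agent.ZC

section

variable {K : Type} [Field K]
variable {Cc Fi Col Ex : Type} [Fintype Cc] [Fintype Fi] [Fintype Col] [Fintype Ex]

/-- the full rows -/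
def jrow (v : Cc ⊕ Fi → Col → K) (x : Fi → Ex → K) : Cc ⊕ Fi → (Col ⊕ Ex → K)
  | .inl i => Sum.elim (v (.inl i)) 0
  | .inr j => Sum.elim (v (.inr j)) (x j)

/-- entries after the shear and the row operations -/
def jent {L : Type} [CommRing L] (τ : K →+* L) (v : Cc ⊕ Fi → Col → K) (x : Fi → Ex → K)
    (σ : Ex → Col → L) (α : Fi → Cc → L) : Cc ⊕ Fi → (Col ⊕ Ex → L)
  | .inl i => Sum.elim (fun y => τ (v (.inl i) y)) 0
  | .inr j => Sum.elim (fun y => τ (v (.inr j) y) + ∑ e, σ e y * τ (x j e) -
      ∑ i, α j i * τ (v (.inl i) y)) (fun e => τ (x j e))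

theorem jrow_rank (v : Cc ⊕ Fi → Col → K) (x : Fi → Ex → K) (SS : Submodule K (Fi → K))
    (hK0 : ∀ f ∈ SS, ∀ e, ∑ j, f j * x j e = 0)
    (hmod : ∀ f ∈ SS, ∀ c : Cc → K,
      (∀ y, ∑ i, c i * v (.inl i) y + ∑ j, f j * v (.inr j) y = 0) → f = 0) :
    finrank K (Submodule.span K (Set.range (fun i : Cc => jrow v x (.inl i)))) + finrank K SS +
      finrank K (Submodule.span K (Set.range x)) ≤
      finrank K (Submodule.span K (Set.range (jrow v x))) := by
  classical
  set U := Submodule.span K (Set.range (jrow v x)) with hU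
  set UT := Submodule.span K (Set.range (fun i : Cc => jrow v x (.inl i))) with hUT
  set π : (Col ⊕ Ex → K) →ₗ[K] (Ex → K) := LinearMap.funLeft K K Sum.inr with hπ
  have hπT : ∀ z ∈ UT, π z = 0 := by
    intro z hz
    rw [hUT] at hz
    have : UT ≤ LinearMap.ker π := by
      rw [hUT, Submodule.span_le]
      rintro _ ⟨i, rfl⟩
      rw [SetLike.mem_coe, LinearMap.mem_ker]
      funext e
      rfl
    exact this hz
  have hUTU : UT ≤ U := by
    rw [hUT, Submodule.span_le]
    rintro _ ⟨i, rfl⟩
    exact Submodule.subset_span ⟨_, rfl⟩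
  have hrange : LinearMap.range (π.domRestrict U) = Submodule.span K (Set.range x) := by
    rw [LinearMap.range_domRestrict, hU, Submodule.map_span]
    refine le_antisymm ?_ ?_
    · rw [Submodule.span_le]
      rintro _ ⟨_, ⟨r, rfl⟩, rfl⟩
      rcases r with i | j
      · have : π (jrow v x (.inl i)) = 0 := hπT _ (Submodule.subset_span ⟨i, rfl⟩)
        rw [this]
        exact Submodule.zero_mem _
      · exact Submodule.subset_span ⟨j, rfl⟩
    · rw [Submodule.span_le]
      rintro _ ⟨j, rfl⟩
      exact Submodule.subset_span ⟨jrow v x (.inr j), ⟨_, rfl⟩, rfl⟩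
  have hrn := LinearMap.finrank_range_add_finrank_ker (π.domRestrict U)
  rw [hrange] at hrn
  -- the map from combinations
  set Ω : (Fi → K) →ₗ[K] (Col ⊕ Ex → K) :=
    Fintype.linearCombination K (fun j => jrow v x (.inr j)) with hΩ
  have hΩa : ∀ f c, Ω f c = ∑ j, f j * jrow v x (.inr j) c := by
    intro f c
    rw [hΩ, Fintype.linearCombination_apply, Finset.sum_apply]
    rfl
  have hΩU : ∀ f, Ω f ∈ U := by
    intro f
    rw [hΩ, Fintype.linearCombination_apply]
    exact Submodule.sum_mem _ fun j _ => Submodule.smul_mem _ _ (Submodule.subset_span ⟨_, rfl⟩)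
  have hker : ∀ (a : UT) (f : SS), π (a.1 + Ω f.1) = 0 := by
    intro a f
    rw [map_add, hπT a.1 a.2, zero_add]
    funext e
    show Ω f.1 (.inr e) = 0
    rw [hΩa]
    exact hK0 f.1 f.2 e
  set Φ : (UT × SS) →ₗ[K] (LinearMap.ker (π.domRestrict U)) :=
    { toFun := fun z => ⟨⟨z.1.1 + Ω z.2.1, Submodule.add_mem _ (hUTU z.1.2) (hΩU _)⟩, by
        rw [LinearMap.mem_ker]
        exact hker z.1 z.2⟩
      map_add' := by
        intro z z'
        apply Subtype.ext
        apply Subtype.ext
        show (z.1.1 + z'.1.1) + Ω (z.2.1 + z'.2.1) = (z.1.1 + Ω z.2.1) + (z'.1.1 + Ω z'.2.1)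
        rw [map_add]
        abel
      map_smul' := by
        intro c z
        apply Subtype.ext
        apply Subtype.ext
        show c • z.1.1 + Ω (c • z.2.1) = c • (z.1.1 + Ω z.2.1)
        rw [map_smul, smul_add] } with hΦ
  have hinj : Function.Injective Φ := by
    refine (injective_iff_map_eq_zero Φ).2 fun z hz => ?_
    have h0 : z.1.1 + Ω z.2.1 = 0 := congrArg (fun w => w.1.1) hz
    obtain ⟨c, hc⟩ := (Submodule.mem_span_range_iff_exists_fun K).1 z.1.2
    have hf : z.2.1 = 0 := by
      refine hmod z.2.1 z.2.2 c fun y => ?_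
      have h1 := congrFun h0 (.inl y)
      rw [Pi.add_apply, hΩa, ← hc, Finset.sum_apply] at h1
      exact h1
    have ha : z.1.1 = 0 := by
      rw [hf, map_zero, add_zero] at h0
      exact h0
    exact Prod.ext (Subtype.ext ha) (Subtype.ext hf)
  have hle := LinearMap.finrank_le_finrank_of_injective hinj
  rw [finrank_prod] at hle
  omega

/-- selection of the rows and columns of the minor -/
theorem jd_struct (v : Cc ⊕ Fi → Col → K) (x : Fi → Ex → K) (M1 : ℕ) (SS : Submodule K (Fi → K))
    (hK : M1 ≤ finrank K SS)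
    (hK0 : ∀ f ∈ SS, ∀ e, ∑ j, f j * x j e = 0)
    (hmod : ∀ f ∈ SS, ∀ c : Cc → K,
      (∀ y, ∑ i, c i * v (.inl i) y + ∑ j, f j * v (.inr j) y = 0) → f = 0) :
    ∃ (b2 : Finset (Cc ⊕ Fi)) (g : b2 → Col ⊕ Ex) (Δ : K), b2.card ≤ Fintype.card Cc + Fintype.card Fi ∧
      b2.card ≤ Fintype.card Col + Fintype.card Ex ∧
      M1 + finrank K (Submodule.span K (Set.range x)) ≤
        (univ.filter (fun r : b2 => r.1.isRight = true)).card ∧ Δ ≠ 0 ∧
      (∀ (A : Subring K) (D : K), (∀ r y, D * v r y ∈ A) → (∀ j e, D * x j e ∈ A) →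
        D ^ b2.card * Δ ∈ A) ∧
      ∀ {L : Type} [CommRing L] (τ : K →+* L) (σ : Ex → Col → L) (α : Fi → Cc → L)
        [DecidableEq b2], (Matrix.of fun (r c : b2) => jent τ v x σ α r.1 (g c)).det = τ Δ := by
  classical
  -- selection of rows
  obtain ⟨b1, hb1, -, hs1, hl1⟩ := exists_linearIndepOn_extension (K := K) (v := jrow v x)
    (s := ∅) (t := Set.range Sum.inl) (linearIndepOn_empty K _) (Set.empty_subset _)
  obtain ⟨b2s, -, hb12s, hs2, hl2s⟩ := exists_linearIndepOn_extension (K := K) (v := jrow v x)
    (s := b1) (t := Set.univ) hl1 (Set.subset_univ _)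
  obtain ⟨b2, hb2⟩ : ∃ b2 : Finset (Cc ⊕ Fi), (b2 : Set (Cc ⊕ Fi)) = b2s :=
    ⟨b2s.toFinset, Set.coe_toFinset _⟩
  rw [← hb2] at hb12s hs2 hl2s
  let decb : DecidableEq b2 := Classical.decEq b2
  have hb12 : ∀ {z}, z ∈ b1 → z ∈ b2 := fun h => by
    have := hb12s h
    rwa [mem_coe] at this
  have hl2 : LinearIndependent K (fun r : b2 => jrow v x r) := hl2s.linearIndependent
  have hspan : Submodule.span K (Set.range (fun r : b2 => jrow v x r)) =
      Submodule.span K (Set.range (jrow v x)) := by
    have e1 : (fun r : b2 => jrow v x r) = jrow v x ∘ ((↑) : b2 → Cc ⊕ Fi) := rfl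
    have e2 : Set.range ((↑) : b2 → Cc ⊕ Fi) = (b2 : Set (Cc ⊕ Fi)) := by
      ext z; simp
    rw [e1, Set.range_comp, e2]
    refine le_antisymm (Submodule.span_mono (Set.image_subset_range _ _)) ?_
    rw [Submodule.span_le, ← Set.image_univ]
    exact hs2
  have hcard : Fintype.card b2 = finrank K (Submodule.span K (Set.range (jrow v x))) := by
    have h5 := linearIndependent_iff_card_eq_finrank_span.mp hl2
    rw [Set.finrank, hspan] at h5
    exact h5
  set G : Finset b2 := univ.filter (fun r => r.1.isRight = true) with hG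
  have memG : ∀ r : b2, r ∈ G ↔ r.1.isRight = true := by intro r; simp [hG]
  set ρ := finrank K (Submodule.span K (Set.range x)) with hρ
  -- number of companion rows among b2
  have hGc : Gᶜ.card ≤ finrank K (Submodule.span K (Set.range (fun i : Cc => jrow v x (.inl i)))) := by
    have hli : LinearIndependent K (fun r : (Gᶜ : Finset b2) => jrow v x r.1.1) :=
      hl2.comp (fun r : (Gᶜ : Finset b2) => r.1) Subtype.val_injective
    have h5 := linearIndependent_iff_card_eq_finrank_span.mp hli
    rw [Fintype.card_coe, Set.finrank] at h5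
    rw [h5]
    refine Submodule.finrank_mono (Submodule.span_mono ?_)
    rintro _ ⟨⟨r, hr⟩, rfl⟩
    rw [mem_compl, memG] at hr
    obtain ⟨r, hr'⟩ := r
    rcases r with i | j
    · exact ⟨i, rfl⟩
    · exact absurd rfl hr
  have hGcard : Gᶜ.card + G.card = Fintype.card b2 := by
    rw [card_compl]
    have := G.card_le_univ
    omega
  have hrk := jrow_rank v x SS hK0 hmod
  have hGM : M1 + ρ ≤ G.card := by omega
  -- the minor
  obtain ⟨g, hg, hdet, hex⟩ := exists_minor_ext (K := K)
    (Matrix.of (fun r : b2 => jrow v x r.1)) hl2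
  have hRc : Fintype.card b2 = b2.card := Fintype.card_coe b2
  refine ⟨b2, g, ((Matrix.of (fun r : b2 => jrow v x r.1)).submatrix id g).det, ?_, ?_, hGM, hdet,
    ?_, ?_⟩
  · have h5 : Fintype.card b2 ≤ Fintype.card (Cc ⊕ Fi) :=
      Fintype.card_le_of_injective _ Subtype.val_injective
    rw [Fintype.card_sum] at h5
    omega
  · have h5 := Submodule.finrank_le (Submodule.span K (Set.range (jrow v x)))
    rw [Module.finrank_fintype_fun_eq_card, Fintype.card_sum] at h5
    omega
  · -- integrality
    intro A D hint hintx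
    have hWint : ∀ r c, D * jrow v x r c ∈ A := by
      rintro (i | j) (y | e)
      · exact hint _ _
      · simp [jrow, A.zero_mem]
      · exact hint _ _
      · exact hintx _ _
    have e3 : D ^ b2.card * ((Matrix.of (fun r : b2 => jrow v x r.1)).submatrix id g).det =
        (D • ((Matrix.of (fun r : b2 => jrow v x r.1)).submatrix id g)).det := by
      rw [Matrix.det_smul, hRc]
    rw [e3, Matrix.det_apply]
    refine A.sum_mem fun s _ => ?_
    have h7 : (∏ i, (D • ((Matrix.of (fun r : b2 => jrow v x r.1)).submatrix id g)) (s i) i) ∈ A :=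
      A.prod_mem fun i _ => by
        rw [Matrix.smul_apply, smul_eq_mul]
        exact hWint _ _
    rw [Units.smul_def]
    exact A.zsmul_mem h7 _
  intro L _ τ σ α inst
  have hinst : inst = decb := Subsingleton.elim _ _
  subst hinst
  -- matrix over L
  set A0 : Matrix b2 b2 L := Matrix.of fun r c => τ (jrow v x r.1 (g c)) with hA0
  have hcast0 : A0.det = τ ((Matrix.of (fun r : b2 => jrow v x r.1)).submatrix id g).det := by
    have e1 : A0 = ((Matrix.of (fun r : b2 => jrow v x r.1)).submatrix id g).map τ := by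
      ext r c
      simp only [hA0, Matrix.of_apply, Matrix.map_apply, Matrix.submatrix_apply, id_eq]
    rw [e1]
    have := RingHom.map_det τ ((Matrix.of (fun r : b2 => jrow v x r.1)).submatrix id g)
    rw [RingHom.mapMatrix_apply] at this
    exact this.symm
  -- the shear, as a column operation
  choose cx hcx0 hcx using hex
  set A1 : Matrix b2 b2 L := Matrix.of fun r c =>
    match g c with
    | .inl y => τ (jrow v x r.1 (.inl y)) + ∑ e, σ e y * τ (jrow v x r.1 (.inr e))
    | .inr e => τ (jrow v x r.1 (.inr e)) with hA1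
  have hdet1 : A1.det = A0.det := by
    rw [← Matrix.det_transpose A1, ← Matrix.det_transpose A0]
    set S : Finset b2 := univ.filter (fun c => (g c).isRight = false) with hS
    have memS : ∀ c, c ∈ S ↔ (g c).isRight = false := by intro c; simp [hS]
    refine det_row_ops A0.transpose A1.transpose S
      (fun c s => match g c with
        | .inl y => ∑ e, σ e y * τ (cx e s)
        | .inr _ => 0) ?_ ?_
    · intro c hc r
      rw [memS] at hc
      simp only [Matrix.transpose_apply, hA1, hA0, Matrix.of_apply]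
      rcases hgc : g c with y | e
      · rw [hgc] at hc
        exact absurd rfl hc
      · rfl
    · intro c hc r
      rw [memS] at hc
      simp only [Matrix.transpose_apply, hA1, hA0, Matrix.of_apply]
      rcases hgc : g c with y | e
      · simp only
        congr 1
        have e1 : ∀ e, τ (jrow v x r.1 (.inr e)) =
            ∑ s ∈ Sᶜ, τ (cx e s) * τ (jrow v x r.1 (g s)) := by
          intro e
          have h6 := hcx e r
          simp only [Matrix.of_apply] at h6
          rw [h6]
          simp only [map_sum, map_mul]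
          symm
          refine Finset.sum_subset (Finset.subset_univ _) fun s _ hs => ?_
          rw [mem_compl, not_not, memS] at hs
          rw [hcx0 e s hs]
          simp
        simp_rw [e1, Finset.mul_sum, Finset.sum_mul]
        rw [Finset.sum_comm]
        refine sum_congr rfl fun s _ => sum_congr rfl fun e _ => by ring
      · rw [hgc] at hc
        exact absurd hc (by simp)
  -- the row operations
  have hcomb : ∀ i : Cc, ∃ c : b2 → K, (∀ s, s ∈ G → c s = 0) ∧
      ∀ y, jrow v x (.inl i) y = ∑ s ∈ Gᶜ, c s * jrow v x s.1 y := by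
    intro i
    have hm : jrow v x (.inl i) ∈ Submodule.span K (jrow v x '' b1) := hs1 ⟨_, ⟨i, rfl⟩, rfl⟩
    rw [Finsupp.mem_span_image_iff_linearCombination] at hm
    obtain ⟨l, hl, hle⟩ := hm
    rw [Finsupp.mem_supported] at hl
    refine ⟨fun s => l s.1, ?_, ?_⟩
    · intro s hs
      rw [memG] at hs
      by_contra hne
      have h4 : s.1 ∈ b1 := hl (Finsupp.mem_support_iff.2 hne)
      obtain ⟨y, hy⟩ := hb1 h4
      rw [← hy] at hs
      simp at hs
    · intro y
      have h5 := congrFun hle y
      rw [Finsupp.linearCombination_apply, Finsupp.sum, Finset.sum_apply] at h5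
      simp only [Pi.smul_apply, smul_eq_mul] at h5
      rw [← h5]
      have h7 : ∑ s ∈ Gᶜ, l s.1 * jrow v x s.1 y =
          ∑ z ∈ (Gᶜ).image (fun s : b2 => s.1), l z * jrow v x z y := by
        rw [Finset.sum_image fun a _ b _ hab => Subtype.ext hab]
      rw [h7]
      refine Finset.sum_subset ?_ ?_
      · intro z hz
        have h8 : z ∈ b1 := hl hz
        refine mem_image.2 ⟨⟨z, hb12 h8⟩, ?_, rfl⟩
        rw [mem_compl, memG]
        obtain ⟨y', hy'⟩ := hb1 h8
        have h9 : z.isRight = false := by rw [← hy']; rfl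
        intro hcon
        have hcon' : z.isRight = true := hcon
        rw [h9] at hcon'
        exact Bool.false_ne_true hcon'
      · intro z _ hz
        rw [Finsupp.notMem_support_iff] at hz
        rw [hz, zero_mul]
  choose cc hcc0 hcc using hcomb
  set cf : b2 → b2 → L := fun r s =>
    match r.1 with
    | .inr j => ∑ i, α j i * τ (cc i s)
    | .inl _ => 0 with hcf
  set A : Matrix b2 b2 L := Matrix.of fun r c =>
    if r ∈ G then A1 r c - ∑ s ∈ Gᶜ, cf r s * A1 s c else A1 r c with hA
  have hdetA : A1.det = A.det := by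
    refine det_row_ops A A1 G cf ?_ ?_
    · intro r hr c
      simp only [hA, Matrix.of_apply, if_neg hr]
    · intro r hr c
      have e1 : ∑ k ∈ Gᶜ, cf r k * A k c = ∑ k ∈ Gᶜ, cf r k * A1 k c := by
        refine sum_congr rfl fun k hk => ?_
        rw [mem_compl] at hk
        simp only [hA, Matrix.of_apply, if_neg hk]
      rw [e1]
      simp only [hA, Matrix.of_apply, if_pos hr]
      ring
  have hcomp : ∀ (j : Fi) (c : b2), ∑ s ∈ Gᶜ, (∑ i, α j i * τ (cc i s)) * A1 s c =
      match g c with
      | .inl y => ∑ i, α j i * τ (v (.inl i) y)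
      | .inr _ => 0 := by
    intro j c
    have e0 : ∀ i, (∑ s ∈ Gᶜ, τ (cc i s) * A1 s c) = match g c with
      | .inl y => τ (v (.inl i) y)
      | .inr _ => 0 := by
      intro i
      have e3 : ∀ z, (∑ s ∈ Gᶜ, τ (cc i s) * τ (jrow v x s.1 z)) = τ (jrow v x (.inl i) z) := by
        intro z
        rw [hcc i z]
        simp only [map_sum, map_mul]
      simp only [hA1, Matrix.of_apply]
      rcases hgc : g c with y | e
      · simp only [mul_add, Finset.sum_add_distrib]
        rw [e3]
        have e4 : ∑ s ∈ Gᶜ, τ (cc i s) * ∑ e, σ e y * τ (jrow v x s.1 (.inr e)) = 0 := by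
          have e5 : ∑ s ∈ Gᶜ, τ (cc i s) * ∑ e, σ e y * τ (jrow v x s.1 (.inr e)) =
              ∑ e, σ e y * ∑ s ∈ Gᶜ, τ (cc i s) * τ (jrow v x s.1 (.inr e)) := by
            simp_rw [Finset.mul_sum]
            rw [Finset.sum_comm]
            refine sum_congr rfl fun s _ => sum_congr rfl fun e _ => by ring
          rw [e5]
          refine sum_eq_zero fun e _ => ?_
          rw [e3]
          simp [jrow]
        rw [e4, add_zero]
        simp [jrow]
      · simp only
        rw [e3]
        simp [jrow]
    have e6 : ∑ s ∈ Gᶜ, (∑ i, α j i * τ (cc i s)) * A1 s c =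
        ∑ i, α j i * ∑ s ∈ Gᶜ, τ (cc i s) * A1 s c := by
      simp_rw [Finset.mul_sum, Finset.sum_mul]
      rw [Finset.sum_comm]
      refine sum_congr rfl fun i _ => sum_congr rfl fun s _ => by ring
    rw [e6]
    simp_rw [e0]
    rcases g c with y | e
    · rfl
    · simp
  have key : (Matrix.of fun (r c : b2) => jent τ v x σ α r.1 (g c)) = A := by
    ext r c
    obtain ⟨r, hrb⟩ := r
    rcases r with i | j
    · have hr : (⟨.inl i, hrb⟩ : b2) ∉ G := by
        rw [memG]; simp
      simp only [hA, Matrix.of_apply, if_neg hr, hA1]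
      rcases hgc : g c with y | e
      · simp [jent, jrow]
      · simp [jent, jrow]
    · have hr : (⟨.inr j, hrb⟩ : b2) ∈ G := (memG _).2 rfl
      simp only [hA, Matrix.of_apply, if_pos hr, hcf]
      rw [hcomp j c]
      simp only [hA1, Matrix.of_apply]
      rcases hgc : g c with y | e
      · simp [jent, jrow]
      · simp [jent, jrow]
  rw [key, ← hdetA, hdet1, hcast0]

end

end Pool.Agent.DK
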