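import Pool.Agent.DK.JDK

/-! # DK: joint determinant inequality over a number field -/

namespace Pool.Agent.DK

open Finset Module Pool.Agent.ZC

theorem det_norm_le {ι : Type} [Fintype ι] [DecidableEq ι] (A : Matrix ι ι ℂ) (N : ℝ)
    (h : ∀ i j, ‖A i j‖ ≤ N) :
    ‖A.det‖ ≤ ((Fintype.card ι).factorial : ℝ) * N ^ Fintype.card ι := by
  have h1 := Matrix.det_le (A := A) (abv := IsAbsoluteValue.toAbsoluteValue (norm : ℂ → ℝ))
    (x := N) h
  rw [nsmul_eq_mul] at h1
  exact h1

theorem one_le_norm_prod {K : Type} [Field K] [NumberField K] (a : K) (ha : a ≠ 0)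
    (hi : IsIntegral ℤ a) : 1 ≤ ∏ ρ : K →ₐ[ℚ] ℂ, ‖ρ a‖ := by
  have h1 := Algebra.norm_eq_prod_embeddings ℚ ℂ a
  have h2 := Algebra.isIntegral_norm ℚ hi
  obtain ⟨w, hw⟩ := IsIntegrallyClosed.isIntegral_iff.1 h2
  have hw0 : w ≠ 0 := by
    rintro rfl
    rw [map_zero] at hw
    exact Algebra.norm_ne_zero_iff.2 ha hw.symm
  rw [← norm_prod, ← h1, ← hw]
  have h3 : (1 : ℝ) ≤ |(w : ℝ)| := by
    have := Int.one_le_abs hw0
    exact_mod_cast this
  have h4 : ‖(algebraMap ℚ ℂ) ((algebraMap ℤ ℚ) w)‖ = |(w : ℝ)| := by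
    simp
  rw [h4]
  exact h3

theorem jd_ineq {K : Type} [Field K] [NumberField K] (τ : K →+* ℝ) {Cc Fi Col Ex : Type}
    [Fintype Cc] [Fintype Fi] [Fintype Col] [Fintype Ex]
    (v : Cc ⊕ Fi → Col → K) (x : Fi → Ex → K) (M1 : ℕ) (SS : Submodule K (Fi → K))
    (hK : M1 ≤ finrank K SS)
    (hK0 : ∀ f ∈ SS, ∀ e, ∑ j, f j * x j e = 0)
    (hmod : ∀ f ∈ SS, ∀ c : Cc → K,
      (∀ y, ∑ i, c i * v (.inl i) y + ∑ j, f j * v (.inr j) y = 0) → f = 0)
    (D : ℕ) (hD : 0 < D) (hint : ∀ r y, IsIntegral ℤ ((D : K) * v r y))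
    (hintx : ∀ j e, IsIntegral ℤ ((D : K) * x j e))
    (N t : ℝ) (hN : 0 ≤ N) (ht0 : 0 ≤ t) (ht1 : t < 1) (γ : Fi → ℕ → ℝ) (u : ℕ → Col → ℝ)
    (h1 : ∀ i y, |τ (v (.inl i) y)| ≤ N) (h1x : ∀ j e, |τ (x j e)| ≤ N)
    (h2 : ∀ j k y, |γ j k * u k y| ≤ N * t ^ (2 * k)) (σ : Ex → Col → ℝ)
    (h3 : ∀ j, ∃ α : Cc → ℝ, ∀ y, HasSum (fun k => γ j k * u k y)
      (τ (v (.inr j) y) + ∑ e, σ e y * τ (x j e) - ∑ i, α i * τ (v (.inl i) y)))
    (h4 : ∀ ρ : K →+* ℂ, (∀ i y, ‖ρ (v (.inl i) y)‖ ≤ N) ∧ (∀ j e, ‖ρ (x j e)‖ ≤ N) ∧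
      ∀ j, ∃ α : Cc → ℂ, ∀ y, ‖ρ (v (.inr j) y) - ∑ i, α i * ρ (v (.inl i) y)‖ ≤ N) :
    ∃ R : ℕ, R ≤ Fintype.card Cc + Fintype.card Fi ∧ R ≤ Fintype.card Col + Fintype.card Ex ∧
      1 ≤ ((D : ℝ) ^ R * ((R.factorial : ℝ) * N ^ R)) ^ (finrank ℚ K) *
        (2 ^ R * (t ^ (M1 * (M1 - 1) / 2) * (1 / (1 - t)) ^ Fintype.card Fi)) := by
  classical
  obtain ⟨b2, g, Δ, hR1, hR2, hGM, hΔ0, hΔi, hΔe⟩ := jd_struct v x M1 SS hK hK0 hmod
  refine ⟨b2.card, hR1, hR2, ?_⟩
  set R := b2.card with hR
  have hRc : Fintype.card b2 = R := Fintype.card_coe b2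
  -- integrality
  have hint2 : IsIntegral ℤ ((D : K) ^ R * Δ) :=
    hΔi (integralClosure ℤ K).toSubring (D : K) hint hintx
  have hDK : ((D : K) ^ R * Δ) ≠ 0 := mul_ne_zero (pow_ne_zero _ (by exact_mod_cast hD.ne')) hΔ0
  have hone := one_le_norm_prod _ hDK hint2
  -- the identity embedding
  set τ' : K →ₐ[ℚ] ℂ := (Complex.ofRealHom.comp τ).toRatAlgHom with hτ'
  have hτ'a : ∀ a, τ' a = ((τ a : ℝ) : ℂ) := fun a => rfl
  -- good bound
  choose α hα using h3
  set G : Finset b2 := univ.filter (fun r => r.1.isRight = true) with hG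
  have memG : ∀ r : b2, r ∈ G ↔ r.1.isRight = true := by intro r; simp [hG]
  set A : Matrix b2 b2 ℝ := Matrix.of fun r c => jent τ v x σ α r.1 (g c) with hA
  have hdA : A.det = τ Δ := hΔe τ σ α
  set X : Matrix b2 b2 ℝ := Matrix.of fun r c =>
    match r.1, g c with
    | .inr j, .inr e => τ (x j e)
    | _, _ => 0 with hX
  set Y : Matrix b2 b2 ℝ := Matrix.of fun r c => A r c - X r c with hY
  have hYval : ∀ (j : Fi) (hj : (Sum.inr j : Cc ⊕ Fi) ∈ b2) (c : b2), Y ⟨.inr j, hj⟩ c =
      match g c with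
      | .inl y => (τ (v (.inr j) y) + ∑ e, σ e y * τ (x j e) - ∑ i, α j i * τ (v (.inl i) y))
      | .inr _ => 0 := by
    intro j hj c
    simp only [hY, hA, Matrix.of_apply, hX]
    rcases g c with y | e
    · simp [jent]
    · simp [jent]
  have hgood := joint_good A X Y G (finrank K (Submodule.span K (Set.range x))) M1 hGM N hN t ht0 ht1
    (fun r k => match r.1 with
      | .inr j => γ j k
      | .inl _ => 0)
    (fun k c => match g c with
      | .inl y => u k y
      | .inr _ => 0)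
    (by
      intro r hr c
      obtain ⟨r, hrb⟩ := r
      rcases r with i | j
      · simp only [hA, Matrix.of_apply]
        rcases g c with y | e
        · simpa [jent] using h1 i y
        · simpa [jent] using hN
      · exact absurd ((memG _).2 rfl) hr)
    (fun r _ c => by simp only [hY, Matrix.of_apply]; ring)
    (by
      intro r hr c
      obtain ⟨r, hrb⟩ := r
      rcases r with i | j
      · exact absurd ((memG _).1 hr) (by simp)
      · simp only [hX, Matrix.of_apply]
        rcases g c with y | e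
        · simpa using hN
        · exact h1x j e)
    (by
      intro r hr k c
      obtain ⟨r, hrb⟩ := r
      rcases r with i | j
      · exact absurd ((memG _).1 hr) (by simp)
      · simp only
        rcases g c with y | e
        · exact h2 j k y
        · simp only [mul_zero, abs_zero]
          positivity)
    (by
      intro r hr c
      obtain ⟨r, hrb⟩ := r
      rcases r with i | j
      · exact absurd ((memG _).1 hr) (by simp)
      · rw [hYval j hrb c]
        simp only
        rcases g c with y | e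
        · exact hα j y
        · simp only [mul_zero]
          exact hasSum_zero)
    (by
      intro S hS hcard'
      -- dependence of the extra parts over `K`
      have hnot : ¬ LinearIndependent K (fun s : S => (match s.1.1 with
          | .inr j => x j
          | .inl _ => 0 : Ex → K)) := by
        intro hli
        have h5 := linearIndependent_iff_card_eq_finrank_span.mp hli
        rw [Fintype.card_coe, Set.finrank] at h5
        have h6 : Submodule.span K (Set.range (fun s : S => (match s.1.1 with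
          | .inr j => x j
          | .inl _ => 0 : Ex → K))) ≤ Submodule.span K (Set.range x) := by
          rw [Submodule.span_le]
          rintro _ ⟨⟨⟨r, hrb⟩, hr⟩, rfl⟩
          rcases r with i | j
          · exact Submodule.zero_mem _
          · exact Submodule.subset_span ⟨j, rfl⟩
        have h7 := Submodule.finrank_mono h6
        omega
      rw [Fintype.linearIndependent_iff] at hnot
      push Not at hnot
      obtain ⟨q, hq, s0, hs0⟩ := hnot
      refine ⟨fun s => if h : s ∈ S then τ (q ⟨s, h⟩) else 0, ⟨s0.1, s0.2, ?_⟩, ?_⟩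
      · show (if h : s0.1 ∈ S then τ (q ⟨s0.1, h⟩) else 0) ≠ 0
        rw [dif_pos s0.2]
        exact (map_ne_zero τ).2 hs0
      · intro c
        rw [← Finset.sum_coe_sort S]
        rcases hgc : g c with y | e
        · refine sum_eq_zero fun s _ => ?_
          have : X s.1 c = 0 := by
            obtain ⟨⟨r, hrb⟩, hr⟩ := s
            rcases r with i | j
            · simp only [hX, Matrix.of_apply, hgc]
            · simp only [hX, Matrix.of_apply, hgc]
          rw [this, mul_zero]
        · have h8 := congrFun hq e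
          rw [Finset.sum_apply] at h8
          have h9 := congrArg τ h8
          simp only [Pi.smul_apply, smul_eq_mul, Pi.zero_apply, map_zero, map_sum,
            map_mul] at h9
          refine Eq.trans (sum_congr rfl fun s _ => ?_) h9
          show (if h : s.1 ∈ S then τ (q ⟨s.1, h⟩) else 0) * _ = _
          rw [dif_pos s.2]
          congr 1
          obtain ⟨⟨r, hrb⟩, hr⟩ := s
          rcases r with i | j
          · exact absurd ((memG _).1 (hS hr)) (by simp)
          · simp only [hX, Matrix.of_apply, hgc])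
  rw [hdA, hRc] at hgood
  have hGF : G.card ≤ Fintype.card Fi := by
    have h5 : Function.Injective (fun r : G => (r.1.1 : Cc ⊕ Fi)) :=
      Subtype.val_injective.comp Subtype.val_injective
    choose jj hjj using fun r : G => Sum.isRight_iff.1 ((memG r.1).1 r.2)
    have h6 : Function.Injective jj := by
      intro r r' h
      apply h5
      show r.1.1 = r'.1.1
      rw [hjj r, hjj r', h]
    have h7 := Fintype.card_le_of_injective jj h6
    rwa [Fintype.card_coe] at h7
  have ht : (1 : ℝ) ≤ 1 / (1 - t) := by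
    rw [one_le_div (by linarith)]
    linarith
  -- the trivial bound
  have htriv : ∀ ρ : K →ₐ[ℚ] ℂ, ‖ρ Δ‖ ≤ (R.factorial : ℝ) * N ^ R := by
    intro ρ
    obtain ⟨hb1, hb2, hb3⟩ := h4 ρ.toRingHom
    choose β hβ using hb3
    have h5 := hΔe (ρ.toRingHom) (fun _ _ => (0 : ℂ)) β
    have h6 := det_norm_le (Matrix.of fun (r c : b2) => jent ρ.toRingHom v x (fun _ _ => (0 : ℂ)) β
      r.1 (g c)) N (by
        intro r c
        obtain ⟨r, hrb⟩ := r
        simp only [Matrix.of_apply]
        rcases r with i | j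
        · rcases g c with y | e
          · simpa [jent] using hb1 i y
          · simpa [jent] using hN
        · rcases g c with y | e
          · simpa [jent] using hβ j y
          · simpa [jent] using hb2 j e)
    rw [h5, hRc] at h6
    exact h6
  -- conclusion
  set P : ℝ := (R.factorial : ℝ) * N ^ R with hP
  have hP0 : 0 ≤ P := by positivity
  have hDR0 : (0 : ℝ) ≤ (D : ℝ) ^ R := by positivity
  have hDR : ∀ ρ : K →ₐ[ℚ] ℂ, ‖ρ ((D : K) ^ R * Δ)‖ = (D : ℝ) ^ R * ‖ρ Δ‖ := by
    intro ρ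
    rw [map_mul, map_pow, map_natCast, norm_mul, norm_pow, Complex.norm_natCast]
  have hgood2 : ‖τ' Δ‖ ≤ P * (2 ^ R * (t ^ (M1 * (M1 - 1) / 2) * (1 / (1 - t)) ^ Fintype.card Fi)) := by
    rw [hτ'a, Complex.norm_real, Real.norm_eq_abs]
    refine hgood.trans ?_
    have e2 : (1 / (1 - t)) ^ G.card ≤ (1 / (1 - t)) ^ Fintype.card Fi := pow_le_pow_right₀ ht hGF
    calc (2 : ℝ) ^ R * ((R.factorial : ℝ) * N ^ R * t ^ (M1 * (M1 - 1) / 2) * (1 / (1 - t)) ^ G.card)
        = P * (2 ^ R * (t ^ (M1 * (M1 - 1) / 2) * (1 / (1 - t)) ^ G.card)) := by rw [hP]; ring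
      _ ≤ _ := by gcongr
  refine hone.trans ?_
  rw [← Finset.mul_prod_erase univ _ (mem_univ τ')]
  have hcardE : (univ.erase τ').card + 1 = finrank ℚ K := by
    rw [card_erase_of_mem (mem_univ _), card_univ, AlgHom.card]
    have : 0 < finrank ℚ K := finrank_pos
    omega
  calc ‖τ' ((D : K) ^ R * Δ)‖ * ∏ ρ ∈ univ.erase τ', ‖ρ ((D : K) ^ R * Δ)‖
      ≤ ((D : ℝ) ^ R * (P * (2 ^ R * (t ^ (M1 * (M1 - 1) / 2) *
          (1 / (1 - t)) ^ Fintype.card Fi)))) * ∏ _ρ ∈ univ.erase τ', ((D : ℝ) ^ R * P) := by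
        rw [hDR]
        apply mul_le_mul
        · exact mul_le_mul_of_nonneg_left hgood2 hDR0
        · refine prod_le_prod (fun _ _ => norm_nonneg _) fun ρ _ => ?_
          rw [hDR]
          exact mul_le_mul_of_nonneg_left (htriv ρ) hDR0
        · exact prod_nonneg fun _ _ => norm_nonneg _
        · positivity
    _ = _ := by
        rw [prod_const, ← hcardE, pow_succ]
        ring

end Pool.Agent.DK
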