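import Pool.Agent.DM.Defs
import Pool.Agent.ZC.COR4

/-!
# DK: the rows over `K` are combinations of rational rows
-/

namespace Pool.Agent.DK

open Finset Pool.Agent.ZC Pool.Agent.SI Pool.Agent.DM

section cast

variable (K : Type) [Field K] [CharZero K]

/-- the cast of the rational power series -/
noncomputable abbrev ps : PowerSeries ℚ →+* PowerSeries K := PowerSeries.map (Rat.castHom K)

theorem ps_coeff (f : PowerSeries ℚ) (m : ℕ) :
    PowerSeries.coeff m (ps K f) = ((PowerSeries.coeff m f : ℚ) : K) := by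
  rw [ps, PowerSeries.coeff_map]; rfl

theorem ps_hl (p l : ℕ) : ps K (hl ℚ p l) = hl K p l := by
  simp [ps, hl]

theorem ps_yl (p l : ℕ) : ps K (yl ℚ p l) = yl K p l := by
  simp [ps, yl]

theorem ps_hs (h : ℕ) (f : PowerSeries ℚ) : ps K (hs ℚ h f) = hs K h (ps K f) := by
  ext r
  simp [ps, hs]

theorem ps_ev (p l : ℕ) (f : Polynomial ℚ) :
    ps K (ev ℚ p l f) = ev K p l (f.map (Rat.castHom K)) := by
  rw [ev, ev, Polynomial.aeval_def, Polynomial.aeval_def, Polynomial.hom_eval₂, ps_yl,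
    Polynomial.eval₂_map]
  congr 1
  exact RingHom.ext_rat _ _

theorem pm_Cp (j : ℕ) : (Cp ℚ j).map (Rat.castHom K) = Cp K j := by
  simp [Cp, Polynomial.map_prod]

theorem pm_Cn (M j : ℕ) : (Cn ℚ M j).map (Rat.castHom K) = Cn K M j := by
  simp [Cn, pm_Cp]

theorem pm_An (M p b : ℕ) : (An ℚ M p b).map (Rat.castHom K) = An K M p b := by
  simp [An, Polynomial.map_comp, pm_Cp]

theorem pm_fB (M p β j : ℕ) : (fB ℚ M p β j).map (Rat.castHom K) = fB K M p β j := by
  simp [fB, pm_An, pm_Cn]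

theorem ps_inv (f : PowerSeries ℚ) (hf : PowerSeries.constantCoeff f ≠ 0) :
    ps K f⁻¹ = (ps K f)⁻¹ := by
  have h1 : PowerSeries.constantCoeff (ps K f) ≠ 0 := by
    rw [← PowerSeries.coeff_zero_eq_constantCoeff_apply, ps_coeff,
      PowerSeries.coeff_zero_eq_constantCoeff_apply]
    exact_mod_cast hf
  rw [PowerSeries.eq_inv_iff_mul_eq_one h1, ← map_mul, PowerSeries.inv_mul_cancel _ hf, map_one]

theorem ps_gs (p b l : ℕ) (hb : 1 ≤ b) : ps K (gs ℚ p b l) = gs K p b l := by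
  have hb0 : (b : ℚ) ≠ 0 := by positivity
  rw [gs, gs, map_add, map_sum, map_sum]
  congr 1
  · refine sum_congr rfl fun k hk => ?_
    rw [mem_Icc] at hk
    have hk0 : (k : ℚ) ≠ 0 := by
      have : k ≠ 0 := by omega
      exact_mod_cast this
    rw [ps_inv]
    · simp [ps]
    · simp [hk0, hb0]
  · refine sum_congr rfl fun k hk => ?_
    rw [mem_Icc] at hk
    have hk0 : (k : ℚ) ≠ 0 := by
      have : k ≠ 0 := by omega
      exact_mod_cast this
    rw [ps_inv]
    · simp [ps]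
    · simp [hk0, hb0]

theorem ps_zs (b : ℕ) (S : Finset ℕ) (z : ℕ → ℚ) :
    ps K (zs ℚ b S z) = zs K b S (fun i => (z i : K)) := by
  simp [ps, zs, map_sum]

theorem ps_yRow (M p T : ℕ) (c : ℕ → ℚ) (l β r j : ℕ) :
    ps K (yRow ℚ M p T c l β r j) = yRow K M p T (fun i => (c i : K)) l β r j := by
  rw [yRow, yRow, ps_hs, map_mul, map_mul, map_pow, ps_hl, ps_ev, pm_fB, ps_zs]

theorem ps_dRow (M p T : ℕ) (z : ℕ → ℚ) (l β r j : ℕ) :
    ps K (dRow ℚ M p T z l β r j) = dRow K M p T (fun i => (z i : K)) l β r j := by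
  rw [dRow, dRow, ps_hs, map_mul, map_mul, map_pow, ps_hl, ps_ev, pm_fB, Gs_eq, Gs_eq, map_sub,
    ps_zs, ps_gs K p _ l (by omega)]

end cast

section lin

variable (K : Type) [Field K]

theorem hsK_add (h : ℕ) (f g : PowerSeries K) : hs K h (f + g) = hs K h f + hs K h g := by
  ext r
  simp only [hs, PowerSeries.coeff_mk, map_add]
  ring

theorem hsK_zero (h : ℕ) : hs K h 0 = 0 := by
  ext r
  simp [hs]

theorem hsK_C (h : ℕ) (c : K) (f : PowerSeries K) :
    hs K h (PowerSeries.C c * f) = PowerSeries.C c * hs K h f := by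
  ext r
  simp only [hs, PowerSeries.coeff_mk, PowerSeries.coeff_C_mul]
  ring

theorem hsK_sum {ι : Type*} (s : Finset ι) (h : ℕ) (f : ι → PowerSeries K) :
    hs K h (∑ i ∈ s, f i) = ∑ i ∈ s, hs K h (f i) := by
  classical
  induction s using Finset.induction_on with
  | empty => simp [hsK_zero]
  | insert i s hi ih => rw [sum_insert hi, sum_insert hi, hsK_add, ih]

theorem zs_lin (b : ℕ) (S : Finset ℕ) (c : ℕ → K) :
    zs K b S c = ∑ i ∈ S, PowerSeries.C (c i) * zs K b S (Pi.single i 1) := by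
  have h : ∀ i ∈ S, zs K b S (Pi.single i 1) =
      PowerSeries.C (2 * (b : K) ^ i) * PowerSeries.X ^ (i - 1) := by
    intro i hi
    rw [zs, sum_eq_single_of_mem i hi]
    · rw [Pi.single_eq_same, mul_one]
    · intro j _ hj
      rw [Pi.single_eq_of_ne hj, mul_zero, map_zero, zero_mul]
  rw [zs]
  refine sum_congr rfl fun i hi => ?_
  rw [h i hi, ← mul_assoc, ← map_mul]
  congr 2
  ring

theorem yRow_lin (M p T : ℕ) (c : ℕ → K) (l β r j : ℕ) :
    yRow K M p T c l β r j =
      ∑ i ∈ oddS T, PowerSeries.C (c i) * yRow K M p T (Pi.single i 1) l β r j := by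
  have h : ∀ i, PowerSeries.C (c i) * yRow K M p T (Pi.single i 1) l β r j =
      hs K r (hl K p l ^ (r % 2) * ev K p l (fB K M p β j) *
        (PowerSeries.C (c i) * zs K (2 * β + 1) (oddS T) (Pi.single i 1))) := by
    intro i
    rw [yRow, ← hsK_C]
    congr 1
    ring
  simp_rw [h]
  rw [← hsK_sum, ← mul_sum, ← zs_lin, yRow]

theorem dRow_lin (M p T : ℕ) (z : ℕ → K) (l β r j : ℕ) :
    dRow K M p T z l β r j = dRow K M p T 0 l β r j + yRow K M p T z l β r j := by
  have h0 : zs K (2 * β + 1) (oddS T) (0 : ℕ → K) = 0 := by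
    rw [zs]
    refine sum_eq_zero fun i _ => ?_
    simp
  rw [dRow, dRow, yRow, ← hsK_add, Gs_eq, Gs_eq, h0]
  congr 1
  ring

end lin

variable (K : Type) [Field K] [CharZero K]

theorem cast_single (i : ℕ) : (fun k => (((Pi.single i 1 : ℕ → ℚ) k : ℚ) : K)) =
    (Pi.single i 1 : ℕ → K) := by
  funext k
  by_cases h : k = i
  · subst h; simp
  · rw [Pi.single_eq_of_ne h, Pi.single_eq_of_ne h, Rat.cast_zero]

/-- extra coordinates: combination of the rational rows with `c = e_i` -/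
theorem dk_lin_y (M p T : ℕ) (c : ℕ → K) (l β r j m : ℕ) :
    PowerSeries.coeff m (yRow K M p T c l β r j) =
      ∑ i ∈ oddS T, c i *
        ((PowerSeries.coeff m (yRow ℚ M p T (Pi.single i 1) l β r j) : ℚ) : K) := by
  rw [yRow_lin, map_sum]
  refine sum_congr rfl fun i _ => ?_
  rw [PowerSeries.coeff_C_mul, ← ps_coeff, ps_yRow, cast_single]

/-- `F` rows: rational row with `z = 0` plus a combination of the rational rows with `c = e_i` -/
theorem dk_lin_d (M p T : ℕ) (z : ℕ → K) (l β r j m : ℕ) :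
    PowerSeries.coeff m (dRow K M p T z l β r j) =
      ((PowerSeries.coeff m (dRow ℚ M p T 0 l β r j) : ℚ) : K) + ∑ i ∈ oddS T, z i *
        ((PowerSeries.coeff m (yRow ℚ M p T (Pi.single i 1) l β r j) : ℚ) : K) := by
  rw [dRow_lin, map_add, dk_lin_y, ← ps_coeff, ps_dRow]
  congr 3
  funext i
  simp

theorem dk_lin_t (M p l j m : ℕ) :
    PowerSeries.coeff m (ev K p l (Cn K M j)) =
      ((PowerSeries.coeff m (ev ℚ p l (Cn ℚ M j)) : ℚ) : K) := by
  rw [← ps_coeff, ps_ev, pm_Cn]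

end Pool.Agent.DK
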