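import Pool.Agent.DK.JIN
import Pool.Agent.DK.ENTK
import Pool.Agent.DK.BDK
import Pool.Agent.DM.SER
import Pool.Agent.DM.BDS
import Pool.Agent.DM.BDT
import Pool.Agent.DM.BDY
import Pool.Agent.DM.LIN
import Pool.Agent.DM.ONE
import Pool.Agent.DM.ZEG
import Pool.Agent.ZC.COR4
import Pool.Agent.SI.ONE

/-!
# DK: the determinant inequality for fixed data and `M` large

Pattern `DM/ONE`, with `jd_ineq` (rows over `K`, product formula). `T` rows `Fin (4Hp)`, `F` rows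
`FI B H S p`, columns `Fin p × Fin a`, extra columns `J × (Fin p × Fin a)`, `p = (a+S+1) M`.
Conjugate `ρ` of an `F` row: `ρ F - F(zr)` is bounded (`dk_bd`), `F(zr)` = real combination of the
`T` rows + the series `∑ lam_κ u_κ` (`dm_level`).
-/

namespace Pool.Agent.DK

open Finset Pool.Agent.ZC Pool.Agent.SI Pool.Agent.DM

/-- real embedding of an `F` row -/
theorem dk_tau_d {K : Type} [Field K] [CharZero K] (τ : K →+* ℝ) (M p T : ℕ) (z : ℕ → K)
    (l β r j m : ℕ) :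
    τ (PowerSeries.coeff m (dRow K M p T z l β r j)) =
      PowerSeries.coeff m (dRow ℝ M p T (fun i => τ (z i)) l β r j) := by
  rw [dk_lin_d K, dk_lin_d ℝ, map_add, map_sum, map_ratCast]
  congr 1
  refine sum_congr rfl fun i _ => ?_
  rw [map_mul, map_ratCast]

/-- real embedding of an extra coordinate -/
theorem dk_tau_y {K : Type} [Field K] [CharZero K] (τ : K →+* ℝ) (M p T : ℕ) (c : ℕ → K)
    (l β r j m : ℕ) :
    τ (PowerSeries.coeff m (yRow K M p T c l β r j)) =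
      PowerSeries.coeff m (yRow ℝ M p T (fun i => τ (c i)) l β r j) := by
  rw [dk_lin_y K, dk_lin_y ℝ, map_sum]
  refine sum_congr rfl fun i _ => ?_
  rw [map_mul, map_ratCast]

/-- any embedding of a `T` row -/
theorem dk_rho_t {K L : Type} [Field K] [CharZero K] [Field L] [CharZero L] (ρ : K →+* L)
    (M p l j m : ℕ) :
    ρ (PowerSeries.coeff m (ev K p l (Cn K M j))) = PowerSeries.coeff m (ev L p l (Cn L M j)) := by
  rw [dk_lin_t K, dk_lin_t L, map_ratCast]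

/-- real rows: linearity in the zeta values -/
theorem dk_shear (M p T : ℕ) {J : Type} [Fintype J] (z : ℕ → ℝ) (c : ℕ → J → ℝ) (v : J → ℝ)
    (h : ∀ i ∈ oddS T, zr i = z i + ∑ j, c i j * v j) (l β r j m : ℕ) :
    PowerSeries.coeff m (dRow ℝ M p T zr l β r j) =
      PowerSeries.coeff m (dRow ℝ M p T z l β r j) +
        ∑ i, v i * PowerSeries.coeff m (yRow ℝ M p T (fun k => c k i) l β r j) := by
  have h1 := dk_lin_d ℝ M p T zr l β r j m
  have h2 := dk_lin_d ℝ M p T z l β r j m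
  rw [h1, h2, add_assoc]
  congr 1
  have h3 : ∀ i, v i * PowerSeries.coeff m (yRow ℝ M p T (fun k => c k i) l β r j) =
      ∑ k ∈ oddS T, (c k i * v i) *
        ((PowerSeries.coeff m (yRow ℚ M p T (Pi.single k 1) l β r j) : ℚ) : ℝ) := by
    intro i
    rw [dk_lin_y ℝ, mul_sum]
    exact sum_congr rfl fun k _ => by ring
  simp_rw [h3]
  rw [sum_comm, ← sum_add_distrib]
  refine sum_congr rfl fun k hk => ?_
  rw [h k hk, ← sum_mul]
  ring

theorem dk_one {K : Type} [Field K] [NumberField K] (τ : K →+* ℝ) (B H a S s0 f0 d : ℕ)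
    (hB : 1 ≤ B) (hBH : B ≤ H)
    (hI1 : 2 * B ^ 2 * (S + 1) + d * a + f0 ≤ 4 * H * B * (S + 1 - s0))
    (hI2 : f0 + 12 * H + 1 ≤ a) {J : Type} [Fintype J] (J1 : Finset J) (hd : J1.card ≤ d)
    (z : ℕ → K) (c : ℕ → J → K) (hlow : ∀ j ∉ J1, ∀ i ∈ oddS (a + S), s0 < i → c i j = 0)
    (v : J → ℝ) (hz : ∀ i ∈ oddS (a + S), zr i = τ (z i) + ∑ j, τ (c i j) * v j) :
    ∃ D0 : ℕ, 0 < D0 ∧ ∃ Λ : ℝ, 1 ≤ Λ ∧ ∃ M0 : ℕ, ∀ M ≥ M0,
      1 ≤ ((((D0 * Nat.lcmUpto M ^ (a + S + 1) : ℕ) : ℝ) *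
          (Λ * (1000 * (H : ℝ) * (a + S + 1)) ^ (5 * (4 * H * ((a + S + 1) * M)))) * 10) ^
            (4 * H * (B * (S + 1) + 1) * ((a + S + 1) * M)) *
        ((((Fintype.card J + 1) * (((a + S + 1) * M) * a)).factorial : ℕ) : ℝ)) ^
          (Module.finrank ℚ K) *
        (4 / 5 : ℝ) ^ ((((a + S + 1) * M) * f0) * ((((a + S + 1) * M) * f0) - 1) / 2) := by
  classical
  have hH : 1 ≤ H := hB.trans hBH
  have ha : 1 ≤ a := by omega
  obtain ⟨D0, hD0, hDz, hDc⟩ := dk_den (a + S) z c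
  obtain ⟨p0, hp0⟩ := dm_ze_gen B H a S s0 f0 d hB hBH hI1 hI2 J1 hd z c hlow
  obtain ⟨M2, hM2⟩ := dm_bd_t H a S hH ha
  obtain ⟨Λ, hΛ, M3, hM3⟩ := dk_bd B H a S (a + S) hB hBH ha z c
  refine ⟨D0, hD0, 4 * Λ, by linarith, p0 + M2 + M3 + 1, fun M hM => ?_⟩
  have hT := hM2 M (by omega)
  have hY := hM3 M (by omega)
  have hMpos : 0 < M := by omega
  obtain ⟨p, hp⟩ : ∃ p, p = (a + S + 1) * M := ⟨_, rfl⟩
  have hpM : M ≤ p := by rw [hp]; exact Nat.le_mul_of_pos_left _ (by omega)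
  have hp1 : 1 ≤ p := by omega
  rw [← hp] at hT hY ⊢
  obtain ⟨SS, hSS1, hSS2⟩ := hp0 p (by omega) M hMpos
  set dd := Nat.lcmUpto M with hdd
  have hdd0 : 0 < dd := Nat.lcmUpto_pos _
  have hdv : ∀ q : ℕ, 1 ≤ q → q ≤ M → q ∣ dd := fun q h1 h2 => dvd_lcmUpto h1 h2
  have hHr : (1 : ℝ) ≤ H := by exact_mod_cast hH
  set N0 : ℝ := (1000 * (H : ℝ) * (a + S + 1)) ^ (5 * (4 * H * p)) with hN0
  have hN1 : (1 : ℝ) ≤ N0 := by
    apply one_le_pow₀
    have h1 : (1 : ℝ) ≤ (a : ℝ) + S + 1 := by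
      have h2 : (0 : ℝ) ≤ a := by positivity
      have h3 : (0 : ℝ) ≤ S := by positivity
      linarith
    nlinarith
  have hΛN : N0 ≤ Λ * N0 := by nlinarith
  have hΛN4 : Λ * N0 ≤ 4 * Λ * N0 := by nlinarith
  have hNN : N0 ≤ 4 * Λ * N0 := hΛN.trans hΛN4
  -- bounds of the `T` rows at every embedding
  have hTr : ∀ i : Fin (4 * H * p), ∀ x : Fin p × Fin a,
      |PowerSeries.coeff (x.2 : ℕ) (ev ℝ p x.1 (Cn ℝ M i))| ≤ N0 :=
    fun i x => hT i i.2 x.1 x.1.2 x.2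
  -- series
  have hser : ∀ y : FI B H S p, ∃ α : Fin (4 * H * p) → ℝ, ∀ x : Fin p × Fin a,
      HasSum (fun κ : ℕ => dlam (4 * H * p) p (2 * (y.1 : ℕ) + 1) y.2.1
          (fB ℝ M p y.1 y.2.2) κ * PowerSeries.coeff (x.2 : ℕ) (yl ℝ p x.1 ^ (4 * H * p + κ)))
        (PowerSeries.coeff (x.2 : ℕ) (dRow ℝ M p (a + S) zr x.1 y.1 y.2.1 y.2.2) -
          ∑ i, α i * PowerSeries.coeff (x.2 : ℕ) (ev ℝ p x.1 (Cn ℝ M i))) := by
    intro y
    obtain ⟨Q, hQ, hser⟩ := dm_level p (2 * (y.1 : ℕ) + 1) (4 * H * p) (a + S) S y.2.1 hp1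
      (by omega) (Nat.lt_succ_iff.1 y.2.1.2) (fB ℝ M p y.1 y.2.2)
      (fB_mem H M p y.1 y.2.2 y.2.2.2)
      (fun k hk hkp => by
        rw [fB, Polynomial.eval_mul, an_root M p _ k hp1 (odd_two_mul_add_one _) hk hkp, zero_mul])
    obtain ⟨α, hα⟩ := exists_comb ℝ M (4 * H * p) Q hQ
    refine ⟨α, fun x => ?_⟩
    have h1 := hser x.1 x.1.2 x.2 (by
      have h2 := x.2.2
      omega)
    convert h1 using 1
    have h6 : PowerSeries.coeff (x.2 : ℕ) (ev ℝ p x.1 Q) =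
        ∑ i, α i * PowerSeries.coeff (x.2 : ℕ) (ev ℝ p x.1 (Cn ℝ M i)) := by
      rw [hα, ONE_ev_sum, map_sum]
      refine sum_congr rfl fun i _ => ?_
      rw [ONE_ev_mul, ONE_ev_C, PowerSeries.coeff_C_mul]
    rw [h6]
    rfl
  have hbd : ∀ y : FI B H S p, ∀ κ : ℕ, ∀ x : Fin p × Fin a,
      |dlam (4 * H * p) p (2 * (y.1 : ℕ) + 1) y.2.1 (fB ℝ M p y.1 y.2.2) κ *
        PowerSeries.coeff (x.2 : ℕ) (yl ℝ p x.1 ^ (4 * H * p + κ))| ≤
        N0 * (4 / 5 : ℝ) ^ (2 * κ) := by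
    intro y κ x
    have h1 := bd_dlam (4 * H * (a + S + 1)) M H p S (Nat.mul_pos (by omega) (by omega)) hH
      (by nlinarith) hp1 hMpos (by rw [hp]; exact (by ring_nf; exact le_rfl))
      (by nlinarith) (by nlinarith) y.1
      (lt_of_lt_of_le y.1.2 hBH) y.2.2 y.2.2.2 x.1 x.1.2 y.2.1 (Nat.lt_succ_iff.1 y.2.1.2) x.2 κ
    refine h1.trans ?_
    have h2 : (100 * ((4 * H * (a + S + 1) : ℕ) : ℝ)) ^ (5 * (4 * H * p)) ≤ N0 := by
      refine pow_le_pow_left₀ (by positivity) ?_ _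
      push_cast
      have h3 : (0 : ℝ) ≤ (H : ℝ) * (a + S + 1) := by positivity
      linarith
    exact mul_le_mul_of_nonneg_right h2 (by positivity)
  have hmain := jd_ineq (K := K) τ (Cc := Fin (4 * H * p)) (Fi := FI B H S p)
    (Col := Fin p × Fin a) (Ex := J × (Fin p × Fin a))
    (Sum.elim (fun i x => PowerSeries.coeff (x.2 : ℕ) (ev K p x.1 (Cn K M i)))
      (fun y x => PowerSeries.coeff (x.2 : ℕ)
        (dRow K M p (a + S) z x.1 (y.1 : ℕ) (y.2.1 : ℕ) (y.2.2 : ℕ))))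
    (fun y e => PowerSeries.coeff (e.2.2 : ℕ)
      (yRow K M p (a + S) (fun i => c i e.1) e.2.1 (y.1 : ℕ) (y.2.1 : ℕ) (y.2.2 : ℕ)))
    (p * f0) SS hSS1
    (fun f hf e => (hSS2 f hf).1 e.1 e.2.1 e.2.1.2 e.2.2 e.2.2.2)
    (fun f hf c' h => (hSS2 f hf).2 c' fun l hl m hm => by
      have h1 := h (⟨l, hl⟩, ⟨m, hm⟩)
      rw [add_comm] at h1
      exact h1)
    (D0 * dd ^ (a + S + 1)) (by positivity)
    (by
      rintro (i | y) x
      · exact dk_int_t hMpos hdv p D0 x.1 i x.2 x.2.2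
      · exact dk_int_d hMpos hdv p (a + S) z D0 hDz x.1 y.1 y.2.1 y.2.2 x.2 x.1.2
          (Nat.lt_succ_iff.1 y.2.1.2) x.2.2)
    (fun y e => dk_int_y hMpos hdv p (a + S) (fun i => c i e.1) D0 (hDc e.1) e.2.1 y.1 y.2.1 y.2.2
      e.2.2 (Nat.lt_succ_iff.1 y.2.1.2) e.2.2.2)
    (4 * Λ * N0) (4 / 5) (by positivity) (by norm_num) (by norm_num)
    (fun y κ => dlam (4 * H * p) p (2 * (y.1 : ℕ) + 1) y.2.1 (fB ℝ M p y.1 y.2.2) κ)
    (fun κ x => PowerSeries.coeff (x.2 : ℕ) (yl ℝ p x.1 ^ (4 * H * p + κ)))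
    (by
      intro i x
      rw [Sum.elim_inl, dk_rho_t]
      exact (hTr i x).trans hNN)
    (by
      intro y e
      have h1 := (hY y.1 y.1.2 y.2.1 (Nat.lt_succ_iff.1 y.2.1.2) y.2.2 y.2.2.2 e.2.1 e.2.1.2
        e.2.2 e.2.2.2 (Complex.ofRealHom.comp τ)).1 e.1
      rw [RingHom.comp_apply, Complex.ofRealHom_eq_coe, Complex.norm_real, Real.norm_eq_abs] at h1
      exact h1.trans hΛN4)
    (by
      intro y κ x
      exact (hbd y κ x).trans (mul_le_mul_of_nonneg_right hNN (by positivity)))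
    (fun e x => if e.2 = x then v e.1 else 0)
    (by
      intro y
      obtain ⟨α, hα⟩ := hser y
      refine ⟨α, fun x => ?_⟩
      have h1 := hα x
      convert h1 using 1
      rw [Sum.elim_inr, dk_tau_d, dk_shear M p (a + S) (fun i => τ (z i)) (fun i j => τ (c i j)) v hz]
      congr 1
      · congr 1
        rw [Fintype.sum_prod_type]
        refine sum_congr rfl fun j _ => ?_
        rw [sum_eq_single x]
        · rw [if_pos rfl, dk_tau_y]
        · intro b _ hb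
          rw [if_neg hb, zero_mul]
        · intro h
          exact absurd (mem_univ _) h
      · refine sum_congr rfl fun i _ => ?_
        rw [Sum.elim_inl, dk_rho_t])
    (by
      intro ρ
      refine ⟨?_, ?_, ?_⟩
      · intro i x
        rw [Sum.elim_inl, dk_lin_t K, map_ratCast, ← Complex.ofReal_ratCast, Complex.norm_real,
          ← dk_lin_t ℝ, Real.norm_eq_abs]
        exact (hTr i x).trans hNN
      · intro y e
        exact ((hY y.1 y.1.2 y.2.1 (Nat.lt_succ_iff.1 y.2.1.2) y.2.2 y.2.2.2 e.2.1 e.2.1.2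
          e.2.2 e.2.2.2 ρ).1 e.1).trans hΛN4
      · intro y
        obtain ⟨α, hα⟩ := hser y
        refine ⟨fun i => (α i : ℂ), fun x => ?_⟩
        have h1 := (hY y.1 y.1.2 y.2.1 (Nat.lt_succ_iff.1 y.2.1.2) y.2.2 y.2.2.2 x.1 x.1.2
          x.2 x.2.2 ρ).2
        have hgeo : HasSum (fun κ : ℕ => N0 * (4 / 5 : ℝ) ^ (2 * κ)) (N0 * (1 - 16 / 25)⁻¹) := by
          have h3 : HasSum (fun κ : ℕ => (16 / 25 : ℝ) ^ κ) (1 - 16 / 25)⁻¹ :=
            hasSum_geometric_of_lt_one (by norm_num) (by norm_num)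
          have e : (fun κ : ℕ => N0 * (4 / 5 : ℝ) ^ (2 * κ)) =
              fun κ : ℕ => N0 * (16 / 25 : ℝ) ^ κ := by
            funext κ
            rw [pow_mul]
            norm_num
          rw [e]
          exact h3.mul_left N0
        have h2 : |PowerSeries.coeff (x.2 : ℕ) (dRow ℝ M p (a + S) zr x.1 y.1 y.2.1 y.2.2) -
          ∑ i, α i * PowerSeries.coeff (x.2 : ℕ) (ev ℝ p x.1 (Cn ℝ M i))| ≤
            N0 * (1 - 16 / 25)⁻¹ := by
          rw [← (hα x).tsum_eq, ← Real.norm_eq_abs]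
          exact tsum_of_norm_bounded hgeo fun κ => by
            rw [Real.norm_eq_abs]
            exact hbd y κ x
        have h4 : ∀ i : Fin (4 * H * p), ρ (PowerSeries.coeff (x.2 : ℕ) (ev K p x.1 (Cn K M i))) =
            ((PowerSeries.coeff (x.2 : ℕ) (ev ℝ p x.1 (Cn ℝ M i)) : ℝ) : ℂ) := by
          intro i
          rw [dk_lin_t K, map_ratCast, dk_lin_t ℝ, Complex.ofReal_ratCast]
        have h5 : ρ (PowerSeries.coeff (x.2 : ℕ)
            (dRow K M p (a + S) z x.1 (y.1 : ℕ) (y.2.1 : ℕ) (y.2.2 : ℕ))) -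
            ∑ i, (α i : ℂ) * ρ (PowerSeries.coeff (x.2 : ℕ) (ev K p x.1 (Cn K M i))) =
            (ρ (PowerSeries.coeff (x.2 : ℕ)
              (dRow K M p (a + S) z x.1 (y.1 : ℕ) (y.2.1 : ℕ) (y.2.2 : ℕ))) -
              ((PowerSeries.coeff (x.2 : ℕ) (dRow ℝ M p (a + S) zr x.1 y.1 y.2.1 y.2.2) : ℝ) : ℂ)) +
            ((PowerSeries.coeff (x.2 : ℕ) (dRow ℝ M p (a + S) zr x.1 y.1 y.2.1 y.2.2) -
              ∑ i, α i * PowerSeries.coeff (x.2 : ℕ) (ev ℝ p x.1 (Cn ℝ M i)) : ℝ) : ℂ) := by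
          simp_rw [h4]
          push_cast
          ring
        rw [Sum.elim_inr]
        simp only [Sum.elim_inl]
        rw [h5]
        refine (norm_add_le _ _).trans ?_
        rw [Complex.norm_real, Real.norm_eq_abs]
        have h7 : N0 * (1 - 16 / 25)⁻¹ ≤ 3 * (Λ * N0) := by
          have h8 : (1 - 16 / 25 : ℝ)⁻¹ ≤ 3 := by norm_num
          nlinarith
        linarith [h1.trans le_rfl, h2])
  obtain ⟨R, hR1, hR2, hR⟩ := hmain
  have hcF := card_FI_le B H S p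
  have hcC : Fintype.card (Fin p × Fin a) = p * a := by
    simp only [Fintype.card_prod, Fintype.card_fin]
  have hX : Fintype.card (Fin (4 * H * p)) + Fintype.card (FI B H S p) ≤
      4 * H * (B * (S + 1) + 1) * p := by
    rw [Fintype.card_fin]
    calc 4 * H * p + Fintype.card (FI B H S p) ≤ 4 * H * p + B * (S + 1) * (4 * H * p) :=
          Nat.add_le_add_left hcF _
      _ = 4 * H * (B * (S + 1) + 1) * p := by ring
  have hYc : Fintype.card (Fin p × Fin a) + Fintype.card (J × (Fin p × Fin a)) =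
      (Fintype.card J + 1) * (p * a) := by
    rw [Fintype.card_prod J, hcC]
    ring
  set X := 4 * H * (B * (S + 1) + 1) * p with hXd
  set Yc := (Fintype.card J + 1) * (p * a) with hYd
  have hRX : R ≤ X := hR1.trans hX
  have hRY : R ≤ Yc := by
    rw [hYc] at hR2
    exact hR2
  have hFX : Fintype.card (FI B H S p) ≤ X := le_trans (Nat.le_add_left _ _) hX
  set Dr : ℝ := ((D0 * dd ^ (a + S + 1) : ℕ) : ℝ) with hDr
  have hDr1 : 1 ≤ Dr := by
    have h1 : 1 ≤ D0 * dd ^ (a + S + 1) := Nat.succ_le_of_lt (by positivity)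
    rw [hDr]
    exact Nat.one_le_cast.2 h1
  set Nr : ℝ := 4 * Λ * N0 with hNr
  have hNr1 : 1 ≤ Nr := hN1.trans hNN
  refine hR.trans ?_
  have hδ : 1 ≤ Module.finrank ℚ K := Module.finrank_pos
  set t2 : ℝ := (4 / 5 : ℝ) ^ ((p * f0) * ((p * f0) - 1) / 2) with ht2
  have ht20 : 0 ≤ t2 := by positivity
  have e1 : Dr ^ R * ((R.factorial : ℝ) * Nr ^ R) ≤ Dr ^ X * ((Yc.factorial : ℝ) * Nr ^ X) := by
    have h1 : Dr ^ R ≤ Dr ^ X := pow_le_pow_right₀ hDr1 hRX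
    have h2 : Nr ^ R ≤ Nr ^ X := pow_le_pow_right₀ hNr1 hRX
    have h3 : (R.factorial : ℝ) ≤ (Yc.factorial : ℝ) := by exact_mod_cast Nat.factorial_le hRY
    have h4 : 0 ≤ Nr ^ R := by positivity
    have h5 : 0 ≤ Dr ^ R := by positivity
    gcongr
  have e2 : (2 : ℝ) ^ R * (1 / (1 - 4 / 5)) ^ Fintype.card (FI B H S p) ≤ 10 ^ X := by
    have h1 : (2 : ℝ) ^ R ≤ 2 ^ X := pow_le_pow_right₀ (by norm_num) hRX
    have h2 : (1 / (1 - 4 / 5) : ℝ) ^ Fintype.card (FI B H S p) ≤ 5 ^ X := by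
      have h3 : (1 / (1 - 4 / 5) : ℝ) = 5 := by norm_num
      rw [h3]
      exact pow_le_pow_right₀ (by norm_num) hFX
    calc (2 : ℝ) ^ R * (1 / (1 - 4 / 5)) ^ Fintype.card (FI B H S p) ≤ 2 ^ X * 5 ^ X := by
          gcongr
      _ = 10 ^ X := by rw [← mul_pow]; norm_num
  have e3 : (10 : ℝ) ^ X ≤ (10 ^ X) ^ Module.finrank ℚ K :=
    le_self_pow₀ (one_le_pow₀ (by norm_num)) (by omega)
  have e4 : (Dr ^ R * ((R.factorial : ℝ) * Nr ^ R)) ^ Module.finrank ℚ K ≤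
      (Dr ^ X * ((Yc.factorial : ℝ) * Nr ^ X)) ^ Module.finrank ℚ K := by
    refine pow_le_pow_left₀ ?_ e1 _
    positivity
  calc (Dr ^ R * ((R.factorial : ℝ) * Nr ^ R)) ^ Module.finrank ℚ K *
        (2 ^ R * (t2 * (1 / (1 - 4 / 5)) ^ Fintype.card (FI B H S p)))
      = (Dr ^ R * ((R.factorial : ℝ) * Nr ^ R)) ^ Module.finrank ℚ K *
        (2 ^ R * (1 / (1 - 4 / 5)) ^ Fintype.card (FI B H S p)) * t2 := by ring
    _ ≤ (Dr ^ X * ((Yc.factorial : ℝ) * Nr ^ X)) ^ Module.finrank ℚ K *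
        (10 ^ X) ^ Module.finrank ℚ K * t2 := by
        refine mul_le_mul_of_nonneg_right ?_ ht20
        refine mul_le_mul e4 (e2.trans e3) (by positivity) ?_
        positivity
    _ = ((Dr * Nr * 10) ^ X * (Yc.factorial : ℝ)) ^ Module.finrank ℚ K * t2 := by
        rw [← mul_pow]
        have e5 : Dr ^ X * ((Yc.factorial : ℝ) * Nr ^ X) * 10 ^ X =
            (Dr * Nr * 10) ^ X * (Yc.factorial : ℝ) := by
          rw [mul_pow (Dr * Nr), mul_pow Dr]
          generalize Nr ^ X = u1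
          generalize Dr ^ X = u2
          ring
        rw [e5]

end Pool.Agent.DK
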